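import Pool.Agent.Lib.MP_778b46_nt.Star

/-!
Schnirelmann type theorem for iterated prime-indexed primes.
-/

namespace Pool.Agent.Lib.MP_778b46_nt.Old.LogStar

theorem result (a : ℕ) : ∃ C : ℕ,
    ∀ j n : ℕ, C ≤ n → n ≤ Nat.iterate (fun t : ℕ => 2 ^ t) j 1 →
      ∃ s : Finset ℕ, s.card ≤ C * j ∧
      (∀ q ∈ s, ∃ x : ℕ, 0 < x ∧
        Nat.iterate (fun k : ℕ => Nat.nth Nat.Prime (k - 1)) (a + 1) x = q) ∧
      ∑ q ∈ s, q = n :=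
  Pool.Agent.Lib.MP_778b46_nt.log_star a

end Pool.Agent.Lib.MP_778b46_nt.Old.LogStar
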